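import Pool.Agent.Helper7.BM.Goals2

/-!
# Project BM: small coprime exponents
-/

set_option autoImplicit false

open Finset Filter Topology

namespace Pool.Agent.Helper14.BM

open Pool.Agent.Helper7.BM

theorem fact_le (M : ℕ) : M.factorial ≤ 3 ^ (M * (M - 1) / 2) := by
  induction M with
  | zero => simp
  | succ M ih =>
    rw [Nat.triangle_succ, pow_add, Nat.factorial_succ, mul_comm]
    have h1 : M + 1 ≤ 3 ^ M := by
      have : M < 3 ^ M := Nat.lt_pow_self (by norm_num)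
      omega
    exact Nat.mul_le_mul ih h1

theorem two_tri (n : ℕ) : 2 * (n * (n - 1) / 2) = n * (n - 1) :=
  Nat.mul_div_cancel' (Nat.even_mul_pred_self n).two_dvd

theorem det_cond (a b k W V l : ℕ) (hb : 2 ≤ b) (hk : 2 ≤ k) (hW : 1 ≤ W) (hV : 1 ≤ V)
    (hWV : W ^ a ≤ V ^ k) (hl : 6 * (W * V) < l) :
    (b * k).factorial * (W ^ a) ^ (k * (b * (b - 1) / 2)) *
      (2 * W ^ b) ^ (b * (k * (k - 1) / 2)) < l ^ (b * k * (b * k - 1) / 2) := by
  have tM := two_tri (b * k)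
  have tb := two_tri b
  have tk := two_tri k
  obtain ⟨b, rfl⟩ : ∃ b', b = b' + 2 := ⟨b - 2, by omega⟩
  obtain ⟨k, rfl⟩ : ∃ k', k = k' + 2 := ⟨k - 2, by omega⟩
  set E := (b + 2) * (k + 2) * ((b + 2) * (k + 2) - 1) / 2 with hE
  set tb' := (b + 2) * (b + 2 - 1) / 2 with htb
  set tk' := (k + 2) * (k + 2 - 1) / 2 with htk
  have e1 : b + 2 - 1 = b + 1 := by omega
  have e2 : k + 2 - 1 = k + 1 := by omega
  have e3 : (b + 2) * (k + 2) - 1 = b * k + 2 * b + 2 * k + 3 := by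
    have : (b + 2) * (k + 2) = b * k + 2 * b + 2 * k + 4 := by ring
    omega
  rw [e1] at tb
  rw [e2] at tk
  rw [e3] at tM
  have hE1 : 1 ≤ E := by
    have : 0 < (b + 2) * (k + 2) * (b * k + 2 * b + 2 * k + 3) := by positivity
    omega
  have hA : (k + 2) * ((k + 2) * tb') ≤ E := by
    have h1 : 2 * ((k + 2) * ((k + 2) * tb')) = (k + 2) * (k + 2) * ((b + 2) * (b + 1)) := by
      rw [← tb]; ring
    have h2 : (k + 2) * (k + 2) * ((b + 2) * (b + 1)) ≤
        (b + 2) * (k + 2) * (b * k + 2 * b + 2 * k + 3) := by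
      have h3 : (k + 2) * (b + 1) ≤ b * k + 2 * b + 2 * k + 3 := by
        have : (k + 2) * (b + 1) = b * k + 2 * b + k + 2 := by ring
        omega
      calc (k + 2) * (k + 2) * ((b + 2) * (b + 1)) =
          (b + 2) * (k + 2) * ((k + 2) * (b + 1)) := by ring
        _ ≤ _ := Nat.mul_le_mul_left _ h3
    omega
  have hB : (b + 2) * ((b + 2) * tk') ≤ E := by
    have h1 : 2 * ((b + 2) * ((b + 2) * tk')) = (b + 2) * (b + 2) * ((k + 2) * (k + 1)) := by
      rw [← tk]; ring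
    have h2 : (b + 2) * (b + 2) * ((k + 2) * (k + 1)) ≤
        (b + 2) * (k + 2) * (b * k + 2 * b + 2 * k + 3) := by
      have h3 : (b + 2) * (k + 1) ≤ b * k + 2 * b + 2 * k + 3 := by
        have : (b + 2) * (k + 1) = b * k + 2 * k + b + 2 := by ring
        omega
      calc (b + 2) * (b + 2) * ((k + 2) * (k + 1)) =
          (b + 2) * (k + 2) * ((b + 2) * (k + 1)) := by ring
        _ ≤ _ := Nat.mul_le_mul_left _ h3
    omega
  have hB2 : (b + 2) * tk' ≤ E := by
    refine le_trans ?_ hB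
    exact Nat.le_mul_of_pos_left _ (by omega)
  have s1 : ((b + 2) * (k + 2)).factorial ≤ 3 ^ E := fact_le _
  have s2 : (W ^ a) ^ ((k + 2) * tb') ≤ V ^ E := by
    calc (W ^ a) ^ ((k + 2) * tb') ≤ (V ^ (k + 2)) ^ ((k + 2) * tb') :=
          Nat.pow_le_pow_left hWV _
      _ = V ^ ((k + 2) * ((k + 2) * tb')) := (pow_mul _ _ _).symm
      _ ≤ V ^ E := Nat.pow_le_pow_right hV hA
  have s3 : (2 * W ^ (b + 2)) ^ ((b + 2) * tk') ≤ 2 ^ E * W ^ E := by
    rw [mul_pow, ← pow_mul]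
    exact Nat.mul_le_mul (Nat.pow_le_pow_right (by norm_num) hB2) (Nat.pow_le_pow_right hW hB)
  calc ((b + 2) * (k + 2)).factorial * (W ^ a) ^ ((k + 2) * tb') *
      (2 * W ^ (b + 2)) ^ ((b + 2) * tk') ≤ 3 ^ E * V ^ E * (2 ^ E * W ^ E) :=
        Nat.mul_le_mul (Nat.mul_le_mul s1 s2) s3
    _ = (6 * (W * V)) ^ E := by
        rw [← mul_pow, ← mul_pow, ← mul_pow]
        congr 1
        ring
    _ < l ^ E := Nat.pow_lt_pow_left hl (by omega)

theorem cc_case : StmtCC := by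
  intro hDM hSGP hBD a b k hb hba hcop hk
  obtain ⟨s1, s2, s3, s4, s5, s6⟩ := hSGP
  refine ⟨12 * b ^ 2 * (a + k) * (a * b + 2 * a) * 2 ^ (a * b + 2 * a), ?_⟩
  intro X W V hW hV hX hWV
  have hWV1 : 1 ≤ W * V := Nat.mul_pos hW hV
  obtain ⟨LL, hcard, hLL⟩ := hBD (6 * (W * V)) (a * b + 2 * a) (by omega)
  set Z : Finset (ℤ × ℤ) := (Pr a b X).image (fun z : ℕ × ℕ => ((z.2 : ℤ), (z.1 : ℤ))) with hZ
  have hZc : Z.card = (Pr a b X).card := by
    rw [hZ, Finset.card_image_of_injective]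
    intro z w h
    have h1 := congrArg Prod.fst h
    have h2 := congrArg Prod.snd h
    simp only [Nat.cast_inj] at h1 h2
    exact Prod.ext h2 h1
  have hmem : ∀ z ∈ Z, ∃ x y : ℕ, z = ((y : ℤ), (x : ℤ)) ∧ 2 ≤ x ∧ x < y ∧ y ≤ X ∧
      sg x a = sg y b := by
    intro z hz
    rw [hZ, Finset.mem_image] at hz
    obtain ⟨w, hw, rfl⟩ := hz
    unfold Pr at hw
    rw [Finset.mem_filter, Finset.mem_product, Finset.mem_range, Finset.mem_range] at hw
    obtain ⟨⟨_, h2⟩, h3, h4, h5⟩ := hw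
    exact ⟨w.1, w.2, rfl, h3, h4, by omega, h5⟩
  have hbound : ∀ x y : ℕ, 2 ≤ x → x < y → y ≤ X → sg x a = sg y b → x ≤ 2 * W ^ b := by
    intro x y hx hxy hy h
    have h1 : x ^ a < 2 * y ^ b := by
      calc x ^ a ≤ sg x a := (s6 a x hx).1
        _ = sg y b := h
        _ < 2 * y ^ b := (s6 b y (by omega)).2
    have h2 : y ^ b ≤ (W ^ a) ^ b := Nat.pow_le_pow_left (le_trans hy hX) b
    have h3 : x ^ a < (2 * W ^ b) ^ a := by
      calc x ^ a < 2 * y ^ b := h1
        _ ≤ 2 * (W ^ a) ^ b := Nat.mul_le_mul_left _ h2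
        _ ≤ 2 ^ a * (W ^ a) ^ b := by
            apply Nat.mul_le_mul_right
            calc 2 = 2 ^ 1 := (pow_one 2).symm
              _ ≤ 2 ^ a := Nat.pow_le_pow_right (by norm_num) (by omega)
        _ = (2 * W ^ b) ^ a := by
            rw [mul_pow, ← pow_mul, ← pow_mul, mul_comm a b]
    exact (lt_of_pow_lt_pow_left₀ a (Nat.zero_le _) h3).le
  have hprod : (6 * W) ^ (a * b + 2 * a) ≤ ∏ l ∈ LL, l := by
    calc (6 * W) ^ (a * b + 2 * a) ≤ (6 * (W * V)) ^ (a * b + 2 * a) := by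
          apply Nat.pow_le_pow_left
          apply Nat.mul_le_mul_left
          exact Nat.le_mul_of_pos_right _ hV
      _ = (6 * (W * V)) ^ LL.card := by rw [hcard]
      _ ≤ ∏ l ∈ LL, l := Finset.pow_card_le_prod _ _ _ (fun l hl => (hLL l hl).2.1.le)
  have hnum : a ^ 2 * (2 * W ^ b) ^ a < (6 * W) ^ (a * b + 2 * a) := by
    have h1 : a ^ 2 < 4 ^ a := by
      have h2 : a < 2 ^ a := Nat.lt_two_pow_self
      calc a ^ 2 < (2 ^ a) ^ 2 := Nat.pow_lt_pow_left h2 (by norm_num)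
        _ = 4 ^ a := by
            rw [← pow_mul, mul_comm, pow_mul]
            norm_num
    have hWp : 0 < W ^ (a * b) := Nat.pow_pos hW
    calc a ^ 2 * (2 * W ^ b) ^ a = a ^ 2 * (2 ^ a * W ^ (a * b)) := by
          rw [mul_pow, ← pow_mul, mul_comm b a]
      _ < 4 ^ a * (2 ^ a * W ^ (a * b)) := by
          apply Nat.mul_lt_mul_of_pos_right h1
          positivity
      _ = 8 ^ a * W ^ (a * b) := by
          rw [← mul_assoc, ← mul_pow]
          norm_num
      _ ≤ 6 ^ (a * b + 2 * a) * W ^ (a * b + 2 * a) := by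
          apply Nat.mul_le_mul
          · calc 8 ^ a ≤ 36 ^ a := Nat.pow_le_pow_left (by norm_num) a
              _ = 6 ^ (2 * a) := by rw [pow_mul]; norm_num
              _ ≤ 6 ^ (a * b + 2 * a) := Nat.pow_le_pow_right (by norm_num) (by omega)
          · exact Nat.pow_le_pow_right hW (by omega)
      _ = (6 * W) ^ (a * b + 2 * a) := (mul_pow _ _ _).symm
  have hmain := hDM (sgp b) (sgp a) 1 b a b k (W ^ a) (2 * W ^ b) LL (by norm_num) (by omega)
    (by omega) hcop.symm (s1 b).1 (s1 a).1 (by rw [(s1 b).2, one_mul])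
    (by rw [(s1 a).2, one_mul]) le_rfl
    (fun l hl => ⟨(hLL l hl).1, det_cond a b k W V l hb hk hW hV hWV (hLL l hl).2.1⟩) Z
    (by
      intro z hz
      obtain ⟨x, y, rfl, h1, h2, h3, h4⟩ := hmem z hz
      have hx := hbound x y h1 h2 h3 h4
      have hd := s3 a x (by omega) (by omega)
      refine ⟨?_, ?_, ?_, ?_, ?_⟩
      · simp only
        rw [s2, s2, h4]
      · simp only
        rw [Nat.abs_cast]
        exact_mod_cast le_trans h3 hX
      · simp only
        rw [Nat.abs_cast]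
        exact_mod_cast hx
      · exact hd.1.ne'
      · simp only
        rw [abs_of_pos hd.1]
        have h5 : (a : ℤ) ^ 2 * (x : ℤ) ^ a < ((∏ l ∈ LL, l : ℕ) : ℤ) := by
          have h6 : a ^ 2 * x ^ a < ∏ l ∈ LL, l := by
            calc a ^ 2 * x ^ a ≤ a ^ 2 * (2 * W ^ b) ^ a :=
                  Nat.mul_le_mul_left _ (Nat.pow_le_pow_left hx a)
              _ < (6 * W) ^ (a * b + 2 * a) := hnum
              _ ≤ ∏ l ∈ LL, l := hprod
          exact_mod_cast h6
        rw [Nat.cast_prod] at h5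
        exact lt_of_le_of_lt hd.2 h5)
    (by
      intro z hz w hw h
      obtain ⟨x, y, rfl, h1, h2, h3, h4⟩ := hmem z hz
      obtain ⟨x', y', rfl, h1', h2', h3', h4'⟩ := hmem w hw
      simp only [Nat.cast_inj] at h
      subst h
      have h5 : sg y b = sg y' b := by rw [← h4, ← h4']
      have h6 : y = y' := by
        rcases lt_trichotomy y y' with h7 | h7 | h7
        · exact absurd h5 (s4 b y y' (by omega) (by omega) h7).ne
        · exact h7
        · exact absurd h5 (s4 b y' y (by omega) (by omega) h7).ne'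
      rw [h6])
  rw [hZc] at hmain
  refine le_trans hmain ?_
  calc ∑ l ∈ LL, 1 * b * l * ((1 * b + b) * (1 * a + k)) ≤
      ∑ _l ∈ LL, 1 * b * (2 ^ (a * b + 2 * a) * (6 * (W * V))) * ((1 * b + b) * (1 * a + k)) := by
        apply Finset.sum_le_sum
        intro l hl
        exact Nat.mul_le_mul_right _ (Nat.mul_le_mul_left _ (hLL l hl).2.2)
    _ = (a * b + 2 * a) *
        (1 * b * (2 ^ (a * b + 2 * a) * (6 * (W * V))) * ((1 * b + b) * (1 * a + k))) := by
        rw [Finset.sum_const, hcard, smul_eq_mul]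
    _ = 12 * b ^ 2 * (a + k) * (a * b + 2 * a) * 2 ^ (a * b + 2 * a) * (W * V) := by ring
    _ ≤ _ := le_rfl

end Pool.Agent.Helper14.BM
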